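import Pool.Agent.Helper87.SC.Embedded

/-!
# Knots in the 3-sphere, Dehn surgery and essential planar surfaces

The structure `KnotTheory` collects the objects and the published theorems which are used. Every field
is a true statement about knots in the 3-sphere.
-/

set_option autoImplicit false

namespace Pool.Agent.Helper87.SC

/-- Knots in the 3-sphere, their Dehn surgeries and the non-meridional essential planar surfaces
in their exteriors. -/
structure KnotTheory where
  /-- the knots in the 3-sphere -/
  Knot : Type
  /-- the least genus of a Seifert surface; it is `0` exactly for the trivial knot -/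
  genus : Knot → ℕ
  /-- the closed connected oriented 3-manifolds up to orientation-preserving homeomorphism -/
  Man : Type
  /-- the 3-sphere -/
  sphere : Man
  /-- the product of the 2-sphere and the circle -/
  sphereCircle : Man
  /-- the connected sum -/
  sum : Man → Man → Man
  /-- the first homology group -/
  H : Man → Type
  /-- the first homology group is an abelian group -/
  [grp : ∀ M, AddCommGroup (H M)]
  /-- `lens n M` says that `M` is a lens space `L(n, q)`, where `2 ≤ n` and `q` is prime to `n` -/
  lens : ℕ → Man → Prop
  /-- the result of the surgery on the knot `K` with the non-meridional slope `r` -/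
  surg : Knot → ℚ → Man
  /-- the essential (incompressible, boundary-incompressible and not boundary-parallel) planar
  surfaces with non-meridional slope which are properly embedded in the exterior of a knot -/
  Surface : Knot → Type
  /-- the boundary slope of an essential planar surface -/
  slope : ∀ {K : Knot}, Surface K → ℚ
  /-- the number of boundary components: `1` for a disc, `2` for an annulus -/
  comps : ∀ {K : Knot}, Surface K → ℕ
  /-- `cabling K r` says that `K` is a torus knot or a cable and that `r` is the slope of its cabling
  annulus -/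
  cabling : Knot → ℚ → Prop
  /-- a sum with the sphere -/
  sum_sphere : ∀ A, sum A sphere = A
  /-- homology of a connected sum -/
  homology_sum : ∀ A B, Nonempty (H (sum A B) ≃+ H A × H B)
  /-- homology of the sphere -/
  homology_sphere : Subsingleton (H sphere)
  /-- the order of a lens space -/
  two_le_of_lens : ∀ {n M}, lens n M → 2 ≤ n
  /-- homology of a lens space -/
  homology_lens : ∀ {n M}, lens n M → Nonempty (H M ≃+ ZMod n)
  /-- homology of an integral surgery -/
  homology_surg : ∀ (K : Knot) (r : ℤ), Nonempty (H (surg K r) ≃+ ZMod r.natAbs)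
  /-- the exterior of the trivial knot is a solid torus: an essential planar surface is a disc -/
  comps_of_trivial : ∀ {K : Knot} (P : Surface K), genus K = 0 → comps P = 1
  /-- Gordon and Luecke 1987: the slope of a non-meridional essential planar surface is
  an integer -/
  slope_integral : ∀ {K : Knot} (P : Surface K), ∃ r : ℤ, slope P = r
  /-- the number of boundary components is no odd number `≥ 3` -/
  even : ∀ {K : Knot} (P : Surface K), 2 ≤ comps P → 2 ∣ comps P
  /-- Gabai 1987, Gordon and Luecke 1989: some level sphere `Q` of a non-trivial knot in thin position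
  meets the essential surface `P` in arcs which are essential in `P` and in `Q`. By the combinatorial
  theorem of Gordon and Luecke the graph in `Q` contains a Scharlemann cycle (the other case would
  give torsion in the homology of the 3-sphere), so the surgery has a lens space as a connected
  summand -/
  lens_summand : ∀ {K : Knot} (P : Surface K), genus K ≠ 0 →
    ∃ n L A, lens n L ∧ surg K (slope P) = sum L A
  /-- Greene 2013, Theorem 1.4: if `r`-surgery on a non-trivial knot of genus `g` gives a lens space
  then `2 g - 1 ≤ |r| - 2 √((4 |r| + 1) / 5)`, unless the knot is a trefoil and `|r| = 5` -/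
  greene : ∀ (K : Knot) (r : ℤ) (n : ℕ), genus K ≠ 0 → lens n (surg K r) →
    2 * (genus K : ℝ) - 1 ≤ r.natAbs - 2 * Real.sqrt ((4 * r.natAbs + 1) / 5) ∨
      genus K = 1 ∧ r.natAbs = 5
  /-- General position: an essential planar surface with `p ≥ 2` boundary components and slope
  `r ≠ 0` is isotopic to a surface which meets a Seifert surface of least genus in a graph; a
  Scharlemann cycle of this graph which has the length `l` gives a lens space `L(l, q)` as a connected
  summand of the surgery: a neighbourhood of the union of the capped surface, a 1-handle and the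
  disc is this lens space without two balls -/
  graph : ∀ {K : Knot} (P : Surface K) (r : ℤ), genus K ≠ 0 → 2 ≤ comps P → slope P = r → r ≠ 0 →
    ∃ G : OneVertexGraph (comps P) r.natAbs (genus K), G.Parity ∧ G.NoMonogon ∧
      ∀ f, G.IsScharlemann f → ∃ L A, lens (G.length f) L ∧ surg K r = sum L A
  /-- an essential sphere which meets the core of the surgery as rarely as possible gives an
  essential planar surface; it is no disc if the knot is non-trivial -/
  surface_of_reducible : ∀ (K : Knot) (r : ℚ), genus K ≠ 0 →
    ((∃ A B, A ≠ sphere ∧ B ≠ sphere ∧ surg K r = sum A B) ∨ surg K r = sphereCircle) →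
    ∃ P : Surface K, slope P = r ∧ 2 ≤ comps P
  /-- an essential annulus which is not meridional is a cabling annulus -/
  annulus : ∀ {K : Knot} (P : Surface K), comps P = 2 → cabling K (slope P)
  /-- Cut an essential planar surface along a cabling annulus with the same slope. The pieces in a
  solid torus are annuli. If the surface is no annulus then the companion is a non-trivial
  knot `J` and a piece in its exterior is an essential planar surface, with the slope `a / b` where
  `b ≥ 2` is prime to `a` -/
  cut : ∀ {K : Knot} (P : Surface K), cabling K (slope P) →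
    comps P = 2 ∨ ∃ (J : Knot) (Q : Surface J), ∀ n : ℤ, slope Q ≠ n
  /-- the knot is a satellite -/
  Satellite : Knot → Prop
  /-- the knot is strongly invertible -/
  StronglyInvertible : Knot → Prop
  /-- the bridge number -/
  bridge : Knot → ℕ
  /-- Scharlemann 1990: the cabling conjecture holds for satellite knots -/
  scharlemann : ∀ (K : Knot) (r : ℚ), Satellite K → genus K ≠ 0 →
    ((∃ A B, A ≠ sphere ∧ B ≠ sphere ∧ surg K r = sum A B) ∨ surg K r = sphereCircle) →
    cabling K r
  /-- Eudave-Munoz 1992: the cabling conjecture holds for strongly invertible knots -/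
  eudaveMunoz : ∀ (K : Knot) (r : ℚ), StronglyInvertible K → genus K ≠ 0 →
    ((∃ A B, A ≠ sphere ∧ B ≠ sphere ∧ surg K r = sum A B) ∨ surg K r = sphereCircle) →
    cabling K r
  /-- Boyer and Zhang 1996: the cabling conjecture holds for knots of genus one -/
  boyerZhang : ∀ (K : Knot) (r : ℚ), genus K = 1 →
    ((∃ A B, A ≠ sphere ∧ B ≠ sphere ∧ surg K r = sum A B) ∨ surg K r = sphereCircle) →
    cabling K r
  /-- Hoffman 1995 and Grove 2015: the cabling conjecture holds for knots with bridge number at
  most five -/
  grove : ∀ (K : Knot) (r : ℚ), bridge K ≤ 5 → genus K ≠ 0 →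
    ((∃ A B, A ≠ sphere ∧ B ≠ sphere ∧ surg K r = sum A B) ∨ surg K r = sphereCircle) →
    cabling K r

namespace KnotTheory

variable (T : KnotTheory)

instance (M : T.Man) : AddCommGroup (T.H M) := T.grp M

/-- `M` is reducible: it contains a sphere which does not bound a ball. -/
def Reducible (M : T.Man) : Prop :=
  (∃ A B, A ≠ T.sphere ∧ B ≠ T.sphere ∧ M = T.sum A B) ∨ M = T.sphereCircle

/-- The question for the knot `K`: every non-meridional essential planar surface in its exterior is a
disc or an annulus. -/
def Strong (K : T.Knot) : Prop := ∀ P : T.Surface K, T.comps P ≤ 2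

/-- The cabling conjecture for the knot `K`: if a non-trivial surgery on the non-trivial knot
`K` is reducible then `K` is a torus knot or a cable and the slope is that of the cabling annulus. -/
def Cabling (K : T.Knot) : Prop :=
  T.genus K ≠ 0 → ∀ r : ℚ, T.Reducible (T.surg K r) → T.cabling K r

variable {T}

theorem lens_ne_sphere {n : ℕ} {L : T.Man} (h : T.lens n L) : L ≠ T.sphere := by
  rintro rfl
  obtain ⟨e⟩ := T.homology_lens h
  have h2 := T.two_le_of_lens h
  have := T.homology_sphere
  have : Subsingleton (ZMod n) := e.symm.toEquiv.subsingleton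
  have : Fact (1 < n) := ⟨h2⟩
  exact zero_ne_one (Subsingleton.elim (0 : ZMod n) 1)

/-- The slope is not zero if the surgery has a lens space as a summand. -/
theorem ne_zero_of_summand {K : T.Knot} {r : ℤ} {n : ℕ} {L A : T.Man} (hL : T.lens n L)
    (h : T.surg K r = T.sum L A) : r ≠ 0 := by
  rintro rfl
  have h2 := T.two_le_of_lens hL
  obtain ⟨e1⟩ := T.homology_surg K 0
  obtain ⟨e2⟩ := T.homology_sum L A
  obtain ⟨e3⟩ := T.homology_lens hL
  rw [h] at e1
  -- an element of order `n` in a group isomorphic to the integers
  set x : T.H L × T.H A := (e3.symm 1, 0) with hx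
  have hx0 : n • x = 0 := by
    rw [hx, Prod.smul_mk, smul_zero, ← map_nsmul]
    have : n • (1 : ZMod n) = 0 := by simp
    rw [this, map_zero]
    rfl
  have hy : n • (e1 (e2.symm x)) = 0 := by
    rw [← map_nsmul, ← map_nsmul, hx0, map_zero, map_zero]
  have hz : e1 (e2.symm x) = 0 := by
    have h3 : ∀ z : ZMod (Int.natAbs 0), n • z = 0 → z = 0 := by
      change ∀ z : ℤ, n • z = 0 → z = 0
      intro z hz
      rw [nsmul_eq_mul] at hz
      rcases mul_eq_zero.mp hz with h5 | h5
      · omega
      · exact h5
    exact h3 _ hy
  have hx1 : x = 0 := by
    have := congrArg e1.symm hz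
    rw [AddEquiv.symm_apply_apply, map_zero] at this
    have h5 := congrArg e2 this
    rwa [AddEquiv.apply_symm_apply, map_zero] at h5
  have h6 : e3.symm 1 = 0 := congrArg Prod.fst hx1
  have h7 : (1 : ZMod n) = 0 := by
    have := congrArg e3 h6
    rwa [AddEquiv.apply_symm_apply, map_zero] at this
  have : Fact (1 < n) := ⟨h2⟩
  exact one_ne_zero h7

/-- The order of a lens space which is obtained by surgery. -/
theorem eq_natAbs {K : T.Knot} {r : ℤ} {n : ℕ} (h : T.lens n (T.surg K r)) : n = r.natAbs := by
  obtain ⟨e1⟩ := T.homology_surg K r
  obtain ⟨e2⟩ := T.homology_lens h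
  have h1 := Nat.card_congr (e2.symm.trans e1).toEquiv
  rwa [Nat.card_zmod, Nat.card_zmod] at h1

/-- A sum with a lens space which is not reducible is this lens space. -/
theorem lens_of_not_reducible {n : ℕ} {M L A : T.Man} (hL : T.lens n L) (h : M = T.sum L A)
    (hM : ¬ T.Reducible M) : T.lens n M := by
  by_cases hA : A = T.sphere
  · rw [h, hA, T.sum_sphere]
    exact hL
  · exact absurd (Or.inl ⟨L, A, lens_ne_sphere hL, hA, h⟩) hM

/-- **Main theorem.** The slope of a non-meridional essential planar surface which is no disc gives
a reducible manifold. -/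
theorem reducible {K : T.Knot} (P : T.Surface K) (hP : 2 ≤ T.comps P) :
    T.Reducible (T.surg K (T.slope P)) := by
  by_contra hred
  have hg : T.genus K ≠ 0 := by
    intro h
    have := T.comps_of_trivial P h
    omega
  obtain ⟨r, hr⟩ := T.slope_integral P
  obtain ⟨n, L, A, hL, hLA⟩ := T.lens_summand P hg
  rw [hr] at hred hLA
  have hr0 : r ≠ 0 := ne_zero_of_summand hL hLA
  have hlens := lens_of_not_reducible hL hLA hred
  obtain ⟨G, hpar, hmon, hG⟩ := T.graph P r hg hP hr hr0
  have h2 := T.even P hP
  have : NeZero (r.natAbs * T.comps P) :=
    ⟨Nat.mul_ne_zero (Int.natAbs_ne_zero.mpr hr0) (by omega)⟩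
  have hle : r.natAbs ≤ 2 * T.genus K + 1 := by
    refine G.le_of_forall_length hP h2 hpar hmon fun f hf => ?_
    obtain ⟨L', A', hL', h'⟩ := hG f hf
    exact eq_natAbs (lens_of_not_reducible hL' h' hred)
  have hn : 2 ≤ r.natAbs := by
    rw [← eq_natAbs hlens]
    exact T.two_le_of_lens hlens
  rcases T.greene K r n hg hlens with h | ⟨h1, h5⟩
  · have h4 : (r.natAbs : ℝ) ≤ 2 * T.genus K + 1 := by exact_mod_cast hle
    have h5 : (2 : ℝ) ≤ r.natAbs := by exact_mod_cast hn
    generalize (r.natAbs : ℝ) = u at h h4 h5
    have h3 : (4 / 3 : ℝ) ≤ Real.sqrt ((4 * u + 1) / 5) :=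
      Real.le_sqrt_of_sq_le (by linarith)
    linarith
  · omega

/-- **The question for a knot is equivalent to the cabling conjecture for this knot.** -/
theorem strong_iff_cabling (K : T.Knot) : T.Strong K ↔ T.Cabling K := by
  constructor
  · intro h hg r hr
    obtain ⟨P, hP, h2⟩ := T.surface_of_reducible K r hg hr
    rw [← hP]
    exact T.annulus P (le_antisymm (h P) h2)
  · intro h P
    by_contra hcon
    push Not at hcon
    have hg : T.genus K ≠ 0 := by
      intro h0
      have := T.comps_of_trivial P h0
      omega
    rcases T.cut P (h hg _ (reducible P (by omega))) with h2 | ⟨J, Q, hQ⟩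
    · omega
    · obtain ⟨n, hn⟩ := T.slope_integral Q
      exact hQ n hn

/-- The question has a positive answer for every knot for which the cabling conjecture is known. -/
theorem strong_of_known (K : T.Knot)
    (h : T.Satellite K ∨ T.StronglyInvertible K ∨ T.genus K = 1 ∨ T.bridge K ≤ 5) :
    T.Strong K := by
  refine (strong_iff_cabling K).mpr fun hg r hr => ?_
  rcases h with h | h | h | h
  · exact T.scharlemann K r h hg hr
  · exact T.eudaveMunoz K r h hg hr
  · exact T.boyerZhang K r h hr
  · exact T.grove K r h hg hr

end KnotTheory

end Pool.Agent.Helper87.SC
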