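import Pool.Agent.Helper87.SC.Graph

/-!
# Graphs with one vertex in a closed orientable surface

The closed surface arises from a Seifert surface by shrinking its boundary to the vertex. A graph in
a closed orientable surface is described by a disc neighbourhood of the vertex with the
end points of the edges in their cyclic order on the boundary of this disc, the edges as bands attached
to the disc, and the faces as surfaces attached to the boundary circles of the union of the disc and
the bands.
-/

set_option autoImplicit false

namespace Pool.Agent.Helper87.SC

/-- A graph with one vertex in a closed orientable surface of genus `g`; the end points of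
the edges are numbered by `ZMod (r * p)` in their cyclic order around the vertex, and the end
point `t` has the label `t.val % p`, so that around the vertex one reads `r` times the labels
`0, 1, …, p - 1`. -/
structure OneVertexGraph (p r g : ℕ) where
  /-- the other end point of the edge with the end point `t` -/
  other : ZMod (r * p) → ZMod (r * p)
  /-- the number of boundary circles of a neighbourhood of the graph -/
  circles : ℕ
  /-- the number of faces -/
  faces : ℕ
  /-- Walk along the edge from `t` to `other t` and turn at the vertex to the next end
  point `other t + 1`. The boundary circle of the neighbourhood of the graph on this side. -/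
  circle : ZMod (r * p) → Fin circles
  /-- the face which is attached to the boundary circle -/
  face : Fin circles → Fin faces
  /-- the genus of a face -/
  faceGenus : Fin faces → ℕ
  /-- the two end points of an edge -/
  other_other : ∀ t, other (other t) = t
  /-- the boundary circles are the cycles of the map `t ↦ other t + 1` -/
  circle_eq : ∀ s t, circle s = circle t ↔ ∃ k : ℕ, (fun x => other x + 1)^[k] t = s
  /-- every circle is met by an edge -/
  circle_surjective : Function.Surjective circle
  /-- every face is attached to a circle -/
  face_surjective : Function.Surjective face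
  /-- twice the Euler characteristic of the surface: there are one vertex and `r * p / 2` edges, and
  a face of genus `h` with `b` boundary circles has the Euler characteristic `2 - 2 * h - b` -/
  euler : (2 : ℤ) - r * p + 2 * ∑ f, (2 - 2 * (faceGenus f : ℤ) -
    (Finset.univ.filter fun i => face i = f).card) = 4 - 4 * g

namespace OneVertexGraph

variable {p r g : ℕ} (G : OneVertexGraph p r g)

/-- The parity rule: the two labels of an edge have different parity. -/
def Parity : Prop := ∀ t, (G.other t).val % 2 ≠ t.val % 2

/-- The face `f` is a disc. -/
def IsDisc (f : Fin G.faces) : Prop :=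
  G.faceGenus f = 0 ∧ (Finset.univ.filter fun i => G.face i = f).card = 1

/-- The number of sides of the face `f`. -/
noncomputable def length (f : Fin G.faces) : ℕ := {t | G.face (G.circle t) = f}.ncard

/-- No face is a disc with only one side. -/
def NoMonogon : Prop := ∀ f, G.IsDisc f → G.length f ≠ 1

/-- The face `f` is bounded by a Scharlemann cycle: it is a disc and for one label `c` all its
edges join the label `c - 1` to the label `c`, and all its corners run from `c - 1` to `c`. -/
def IsScharlemann (f : Fin G.faces) : Prop :=
  G.IsDisc f ∧ ∃ c : ℕ, ∀ t, G.face (G.circle t) = f → t.val % p = c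

/-- The set of faces which are bounded by Scharlemann cycles. -/
noncomputable def scharlemann : Finset (Fin G.faces) := by
  classical exact Finset.univ.filter G.IsScharlemann

theorem mem_scharlemann {f : Fin G.faces} : f ∈ G.scharlemann ↔ G.IsScharlemann f := by
  classical
  unfold scharlemann
  simp

section

variable [NeZero (r * p)]

/-- The end points whose side lies in the face `f`. -/
noncomputable def sides (f : Fin G.faces) : Finset (ZMod (r * p)) :=
  Finset.univ.filter fun t => G.face (G.circle t) = f

theorem mem_sides {f : Fin G.faces} {t : ZMod (r * p)} :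
    t ∈ G.sides f ↔ G.face (G.circle t) = f := by
  simp [sides]

theorem card_sides (f : Fin G.faces) : (G.sides f).card = G.length f := by
  rw [length, ← Set.ncard_coe_finset]
  congr 1
  ext t
  simp [sides]

theorem sides_nonempty (f : Fin G.faces) : (G.sides f).Nonempty := by
  obtain ⟨i, hi⟩ := G.face_surjective f
  obtain ⟨t, ht⟩ := G.circle_surjective i
  exact ⟨t, G.mem_sides.mpr (by rw [ht, hi])⟩

theorem sides_injective : Function.Injective G.sides := by
  intro f f' h
  obtain ⟨t, ht⟩ := G.sides_nonempty f
  have h1 := G.mem_sides.mp ht
  rw [h] at ht
  rw [← h1, G.mem_sides.mp ht]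

/-- The sides of a disc form one cycle. -/
theorem disc_cycle {f : Fin G.faces} (hf : G.IsDisc f) {t : ZMod (r * p)} (ht : t ∈ G.sides f)
    (s : ZMod (r * p)) : s ∈ G.sides f ↔ ∃ k : ℕ, (fun x => G.other x + 1)^[k] t = s := by
  rw [← G.circle_eq, G.mem_sides]
  rw [G.mem_sides] at ht
  constructor
  · intro hs
    obtain ⟨i, hi⟩ := Finset.card_eq_one.mp hf.2
    have h1 : G.circle s ∈ Finset.univ.filter fun i => G.face i = f := by simp [hs]
    have h2 : G.circle t ∈ Finset.univ.filter fun i => G.face i = f := by simp [ht]
    rw [hi, Finset.mem_singleton] at h1 h2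
    rw [h1, h2]
  · intro hs
    rw [hs, ht]

/-- The graph with its discs. -/
noncomputable def toGraph (hpar : G.Parity) (hmon : G.NoMonogon) : Graph p r g := by
  classical
  exact
  { other := G.other
    discs := (Finset.univ.filter G.IsDisc).image G.sides
    other_other := G.other_other
    parity := hpar
    two_le_card := by
      intro D hD
      obtain ⟨f, hf, rfl⟩ := Finset.mem_image.mp hD
      have h1 := hmon f (Finset.mem_filter.mp hf).2
      have h2 := Finset.card_pos.mpr (G.sides_nonempty f)
      rw [G.card_sides] at h2 ⊢
      omega
    cycle := by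
      intro D hD t ht s
      obtain ⟨f, hf, rfl⟩ := Finset.mem_image.mp hD
      exact G.disc_cycle (Finset.mem_filter.mp hf).2 ht s
    euler := by
      rw [Finset.card_image_of_injective _ G.sides_injective]
      have h1 : ∀ f : Fin G.faces, 1 ≤ (Finset.univ.filter fun i => G.face i = f).card := by
        intro f
        obtain ⟨i, hi⟩ := G.face_surjective f
        exact Finset.card_pos.mpr ⟨i, by simp [hi]⟩
      have h2 : ∑ f, (2 - 2 * (G.faceGenus f : ℤ) -
          (Finset.univ.filter fun i => G.face i = f).card) ≤
          ∑ f, if G.IsDisc f then (1 : ℤ) else 0 := by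
        refine Finset.sum_le_sum fun f _ => ?_
        have h3 := h1 f
        split_ifs with h
        · omega
        · unfold IsDisc at h
          by_cases h4 : G.faceGenus f = 0
          · have h5 : (Finset.univ.filter fun i => G.face i = f).card ≠ 1 := fun h5 => h ⟨h4, h5⟩
            omega
          · omega
      have h5 : ∑ f, (if G.IsDisc f then (1 : ℤ) else 0) =
          ((Finset.univ.filter G.IsDisc).card : ℤ) := Finset.sum_boole _ _
      have h6 := G.euler
      have h7 : ((r * p : ℕ) : ℤ) = (r : ℤ) * p := by push_cast; ring
      rw [h5] at h2
      omega }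

theorem mem_discs_toGraph {hpar : G.Parity} {hmon : G.NoMonogon} {D : Finset (ZMod (r * p))} :
    D ∈ (G.toGraph hpar hmon).discs ↔ ∃ f, G.IsDisc f ∧ G.sides f = D := by
  classical
  unfold toGraph
  simp

theorem isScharlemann_iff {f : Fin G.faces} (hf : G.IsDisc f) :
    Graph.IsScharlemann (G.sides f) ↔ G.IsScharlemann f := by
  unfold IsScharlemann Graph.IsScharlemann
  simp only [G.mem_sides]
  exact ⟨fun h => ⟨hf, h⟩, fun h => h.2⟩

theorem scharlemann_toGraph (hpar : G.Parity) (hmon : G.NoMonogon) :
    (G.toGraph hpar hmon).scharlemann = G.scharlemann.map ⟨G.sides, G.sides_injective⟩ := by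
  classical
  ext D
  unfold Graph.scharlemann
  rw [Finset.mem_filter, G.mem_discs_toGraph, Finset.mem_map]
  constructor
  · rintro ⟨⟨f, hf, rfl⟩, h⟩
    exact ⟨f, G.mem_scharlemann.mpr ((G.isScharlemann_iff hf).mp h), rfl⟩
  · rintro ⟨f, hf, rfl⟩
    have h := G.mem_scharlemann.mp hf
    exact ⟨⟨f, h.1, rfl⟩, (G.isScharlemann_iff h.1).mpr h⟩

/-- **The number of Scharlemann cycles** is at least `r + 1 - 2 * g`. -/
theorem le_card_scharlemann (hp : 2 ≤ p) (h2 : 2 ∣ p) (hpar : G.Parity) (hmon : G.NoMonogon) :
    r + 1 ≤ G.scharlemann.card + 2 * g := by
  have h := (G.toGraph hpar hmon).le_card_scharlemann hp h2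
  rwa [G.scharlemann_toGraph, Finset.card_map] at h

/-- **The lengths of the Scharlemann cycles**: the numbers `length - 2` add up to at most
`4 * g - 2`. -/
theorem sum_length_le (hpar : G.Parity) (hmon : G.NoMonogon) :
    ∑ f ∈ G.scharlemann, G.length f + 2 ≤ 2 * G.scharlemann.card + 4 * g := by
  have h := (G.toGraph hpar hmon).sum_card_scharlemann_le
  rw [G.scharlemann_toGraph, Finset.card_map, Finset.sum_map] at h
  simpa [G.card_sides] using h

/-- If all Scharlemann cycles have length `r` then `r ≤ 2 * g + 1`. -/
theorem le_of_forall_length (hp : 2 ≤ p) (h2 : 2 ∣ p) (hpar : G.Parity) (hmon : G.NoMonogon)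
    (h : ∀ f, G.IsScharlemann f → G.length f = r) : r ≤ 2 * g + 1 := by
  refine (G.toGraph hpar hmon).le_of_forall_card hp h2 fun D hD hs => ?_
  obtain ⟨f, hf, rfl⟩ := G.mem_discs_toGraph.mp hD
  rw [G.card_sides]
  exact h f ((G.isScharlemann_iff hf).mp hs)

end

end OneVertexGraph

end Pool.Agent.Helper87.SC
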