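import Mathlib

/-!
# Intersection graphs with one vertex

`P` is a planar surface with `p` boundary components and integral slope of absolute value `r` in the
exterior of a knot, `F` a Seifert surface of genus `g`. The boundary of `F` meets the boundary
components of `P` in `r * p` points; going around the boundary of `F` one meets the components
`0, 1, …, p - 1, 0, 1, …` of the boundary of `P` in this cyclic order, `r` times.
-/

set_option autoImplicit false

namespace Pool.Agent.Helper87.SC

/-- The intersection graph of a Seifert surface `F` of genus `g` with a planar surface `P` whose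
boundary has `p` components and meets the boundary of `F` in `r * p` points, seen on `F`.

The points are the elements of `ZMod (r * p)` in their cyclic order on the boundary of `F`; the point
`t` lies on the boundary component number `t.val % p` of `P`. The arcs of the intersection of `F` and
`P` join the points in pairs. A face is a component of the complement of the arcs in the closed surface
which arises from `F` by shrinking the boundary to one vertex. Going around a face one
arrives at a point `t`, runs along the arc from `t` to `other t` and then along the boundary of `F`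
from `other t` to `other t + 1`. A face which is a disc is given by the set of the points at which one
arrives. -/
structure Graph (p r g : ℕ) where
  /-- the other end of the arc with the end `t` -/
  other : ZMod (r * p) → ZMod (r * p)
  /-- the faces which are discs -/
  discs : Finset (Finset (ZMod (r * p)))
  /-- the arcs join the points in pairs -/
  other_other : ∀ t, other (other t) = t
  /-- the parity rule: `P` separates the exterior and `F` is orientable -/
  parity : ∀ t, (other t).val % 2 ≠ t.val % 2
  /-- every arc meets at least two sides of faces: no arc is parallel into the boundary of `F`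
  (`P` is boundary-incompressible) -/
  two_le_card : ∀ D ∈ discs, 2 ≤ D.card
  /-- the points of a disc form one cycle of the map `t ↦ other t + 1` -/
  cycle : ∀ D ∈ discs, ∀ t ∈ D, ∀ s, s ∈ D ↔ ∃ k : ℕ, (fun x => other x + 1)^[k] t = s
  /-- Euler characteristic: there are at least `E + 1 - 2 * g` discs, `E = r * p / 2` is the number
  of arcs -/
  euler : r * p + 2 ≤ 2 * discs.card + 4 * g

namespace Graph

variable {p r g : ℕ} (G : Graph p r g)

/-- A Scharlemann cycle: a disc all whose corners run from the component `c - 1` to the component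
`c` of the boundary of `P`, for one `c`. -/
def IsScharlemann (D : Finset (ZMod (r * p))) : Prop :=
  ∃ c : ℕ, ∀ t ∈ D, t.val % p = c

/-- The set of discs which are Scharlemann cycles. -/
noncomputable def scharlemann : Finset (Finset (ZMod (r * p))) := by
  classical exact G.discs.filter IsScharlemann

section

variable [NeZero (r * p)]

/-- The number of the boundary component, as an element of `ZMod p`. -/
def lab : ZMod (r * p) →+* ZMod p := ZMod.castHom (Dvd.intro_left r rfl) (ZMod p)

theorem val_lab (hp : 0 < p) (t : ZMod (r * p)) : (lab t).val = t.val % p := by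
  have : NeZero p := ⟨by omega⟩
  unfold lab
  rw [ZMod.castHom_apply, ZMod.cast_eq_val, ZMod.val_natCast]

/-- The map from a side of an arc to the next side of the same face. -/
def nxt (t : ZMod (r * p)) : ZMod (r * p) := G.other t + 1

/-- The jump of a side. -/
def jump (t : ZMod (r * p)) : ℤ := ((lab (G.other t)).val : ℤ) - ((lab (t - 1)).val : ℤ)

theorem nxt_injective : Function.Injective G.nxt := by
  intro s t h
  have h1 : G.other s = G.other t := add_right_cancel h
  rw [← G.other_other s, h1, G.other_other]

theorem nxt_mem {D : Finset (ZMod (r * p))} (hD : D ∈ G.discs) {t : ZMod (r * p)} (ht : t ∈ D) :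
    G.nxt t ∈ D :=
  (G.cycle D hD t ht _).mpr ⟨1, rfl⟩

theorem image_nxt {D : Finset (ZMod (r * p))} (hD : D ∈ G.discs) : D.image G.nxt = D := by
  refine Finset.eq_of_subset_of_card_le ?_ ?_
  · intro s hs
    obtain ⟨t, ht, rfl⟩ := Finset.mem_image.mp hs
    exact G.nxt_mem hD ht
  · rw [Finset.card_image_of_injective _ G.nxt_injective]

/-- The jumps around a face add up to `0`. -/
theorem sum_jump {D : Finset (ZMod (r * p))} (hD : D ∈ G.discs) : ∑ t ∈ D, G.jump t = 0 := by
  have h1 : ∑ t ∈ D, ((lab (t - 1)).val : ℤ) = ∑ t ∈ D, ((lab (G.other t)).val : ℤ) := by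
    conv_lhs => rw [← G.image_nxt hD]
    rw [Finset.sum_image (fun s _ t _ h => G.nxt_injective h)]
    refine Finset.sum_congr rfl fun t _ => ?_
    rw [nxt, add_sub_cancel_right]
  simp only [jump, Finset.sum_sub_distrib, h1, sub_self]

/-- A disc without a positive jump is a Scharlemann cycle. -/
theorem scharlemann_of_nonpos (hp : 0 < p) {D : Finset (ZMod (r * p))} (hD : D ∈ G.discs)
    (h : ∀ t ∈ D, G.jump t ≤ 0) : IsScharlemann D := by
  have h0 : ∀ t ∈ D, G.jump t = 0 := (Finset.sum_eq_zero_iff_of_nonpos h).mp (G.sum_jump hD)
  have hcard := G.two_le_card D hD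
  obtain ⟨t, ht⟩ : D.Nonempty := Finset.card_pos.mp (by omega)
  have : NeZero p := ⟨by omega⟩
  have hstep : ∀ s ∈ D, lab (G.nxt s) = lab s := by
    intro s hs
    have h1 := h0 s hs
    unfold jump at h1
    have h2 : (lab (G.other s)).val = (lab (s - 1)).val := by omega
    have h3 := ZMod.val_injective p h2
    rw [nxt, map_add, h3, ← map_add, sub_add_cancel]
  have hall : ∀ k : ℕ, lab ((fun x => G.other x + 1)^[k] t) = lab t := by
    intro k
    induction k with
    | zero => rfl
    | succ k ih =>
      rw [Function.iterate_succ_apply']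
      exact (hstep _ ((G.cycle D hD t ht _).mpr ⟨k, rfl⟩)).trans ih
  refine ⟨t.val % p, fun s hs => ?_⟩
  obtain ⟨k, hk⟩ := (G.cycle D hD t ht s).mp hs
  rw [← val_lab hp, ← val_lab hp, ← hk, hall]

/-- The label of the previous point. -/
theorem val_lab_sub_one (hp : 2 ≤ p) (t : ZMod (r * p)) :
    (lab (t - 1)).val + 1 = if (lab t).val = 0 then p else (lab t).val := by
  have : NeZero p := ⟨by omega⟩
  have h1 : lab t = lab (t - 1) + 1 := by rw [map_sub, map_one, sub_add_cancel]
  set c := lab (t - 1) with hc
  have h2 : (1 : ZMod p).val = 1 := by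
    have : Fact (1 < p) := ⟨by omega⟩
    exact ZMod.val_one p
  have h3 : (lab t).val = (c.val + 1) % p := by rw [h1, ZMod.val_add, h2]
  have h4 := ZMod.val_lt c
  rw [h3]
  by_cases h5 : c.val + 1 = p
  · rw [h5, Nat.mod_self, if_pos rfl]
  · rw [Nat.mod_eq_of_lt (by omega), if_neg (by omega)]

theorem lab_parity (hp : 0 < p) (h2 : 2 ∣ p) (t : ZMod (r * p)) : (lab t).val % 2 = t.val % 2 := by
  rw [val_lab hp, Nat.mod_mod_of_dvd _ h2]

/-- At most one of the two sides of an arc has a positive jump. -/
theorem jump_other (hp : 2 ≤ p) (h2 : 2 ∣ p) (t : ZMod (r * p)) (h : 0 < G.jump t) :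
    G.jump (G.other t) ≤ 0 ∧ (lab t).val ≠ 0 ∧ (lab (G.other t)).val ≠ 0 := by
  have e1 := val_lab_sub_one hp t
  have e2 := val_lab_sub_one hp (G.other t)
  have hpar := G.parity t
  rw [← lab_parity (by omega) h2, ← lab_parity (by omega) h2] at hpar
  have : NeZero p := ⟨by omega⟩
  have l1 := ZMod.val_lt (lab t)
  have l2 := ZMod.val_lt (lab (G.other t))
  unfold jump at h ⊢
  rw [G.other_other]
  split_ifs at e1 e2 with h3 h4 h5 <;> refine ⟨?_, ?_, ?_⟩ <;> omega

/-- There are at least `r` points on the component `0`. -/
theorem card_zero (hp : 0 < p) :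
    r ≤ (Finset.univ.filter fun t : ZMod (r * p) => (lab t).val = 0).card := by
  classical
  have hval : ∀ i : ℕ, i < r → ((p * i : ℕ) : ZMod (r * p)).val = p * i := by
    intro i hi
    rw [ZMod.val_natCast, Nat.mod_eq_of_lt]
    rw [mul_comm r p]
    exact Nat.mul_lt_mul_of_pos_left hi hp
  have h1 : (Finset.range r).card ≤
      (Finset.univ.filter fun t : ZMod (r * p) => (lab t).val = 0).card := by
    refine Finset.card_le_card_of_injOn (fun i => ((p * i : ℕ) : ZMod (r * p))) ?_ ?_
    · intro i hi
      have hi' : i < r := by simpa using hi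
      have : (lab ((p * i : ℕ) : ZMod (r * p))).val = 0 := by
        rw [val_lab hp, hval i hi', Nat.mul_mod_right]
      simpa using this
    · intro i hi j hj h
      have hi' : i < r := by simpa using hi
      have hj' : j < r := by simpa using hj
      have h2 := congrArg ZMod.val h
      simp only [hval i hi', hval j hj'] at h2
      exact Nat.eq_of_mul_eq_mul_left hp h2
  rwa [Finset.card_range] at h1

/-- The sides with positive jump. -/
def pos : Finset (ZMod (r * p)) := Finset.univ.filter fun t => 0 < G.jump t

theorem card_pos_le (hp : 2 ≤ p) (h2 : 2 ∣ p) : 2 * G.pos.card + 2 * r ≤ r * p := by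
  classical
  set Z := Finset.univ.filter fun t : ZMod (r * p) => (lab t).val = 0 with hZ
  have hinj : Function.Injective G.other := by
    intro s t h
    rw [← G.other_other s, h, G.other_other]
  set A := G.pos with hA
  set B := G.pos.image G.other with hB
  set C := Z.image G.other with hC
  have hAB : Disjoint A B := by
    rw [Finset.disjoint_left]
    intro t ht ht'
    obtain ⟨s, hs, rfl⟩ := Finset.mem_image.mp ht'
    have h1 := (Finset.mem_filter.mp hs).2
    have h3 := (Finset.mem_filter.mp ht).2
    have := (G.jump_other hp h2 s h1).1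
    omega
  have hAZ : Disjoint A Z := by
    rw [Finset.disjoint_left]
    intro t ht ht'
    exact (G.jump_other hp h2 t (Finset.mem_filter.mp ht).2).2.1 (Finset.mem_filter.mp ht').2
  have hBZ : Disjoint B Z := by
    rw [Finset.disjoint_left]
    intro t ht ht'
    obtain ⟨s, hs, rfl⟩ := Finset.mem_image.mp ht
    exact (G.jump_other hp h2 s (Finset.mem_filter.mp hs).2).2.2 (Finset.mem_filter.mp ht').2
  have hAC : Disjoint A C := by
    rw [Finset.disjoint_left]
    intro t ht ht'
    obtain ⟨s, hs, rfl⟩ := Finset.mem_image.mp ht'
    have h1 := (G.jump_other hp h2 _ (Finset.mem_filter.mp ht).2).2.2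
    rw [G.other_other] at h1
    exact h1 (Finset.mem_filter.mp hs).2
  have hBC : Disjoint B C := by
    rw [Finset.disjoint_left]
    intro t ht ht'
    obtain ⟨s, hs, rfl⟩ := Finset.mem_image.mp ht
    obtain ⟨u, hu, h⟩ := Finset.mem_image.mp ht'
    have := hinj h
    subst this
    exact (G.jump_other hp h2 _ (Finset.mem_filter.mp hs).2).2.1 (Finset.mem_filter.mp hu).2
  have hZC : Disjoint Z C := by
    rw [Finset.disjoint_left]
    intro t ht ht'
    obtain ⟨s, hs, rfl⟩ := Finset.mem_image.mp ht'
    have h1 := (Finset.mem_filter.mp hs).2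
    have h3 := (Finset.mem_filter.mp ht).2
    have hpar := G.parity s
    rw [← lab_parity (by omega) h2, ← lab_parity (by omega) h2, h1, h3] at hpar
    exact hpar rfl
  have hcard : (A ∪ B ∪ Z ∪ C).card ≤ r * p := by
    refine (Finset.card_le_univ _).trans ?_
    rw [ZMod.card]
  have hBcard : B.card = A.card := Finset.card_image_of_injective _ hinj
  have hCcard : C.card = Z.card := Finset.card_image_of_injective _ hinj
  have h1 : Disjoint (A ∪ B) Z := Finset.disjoint_union_left.mpr ⟨hAZ, hBZ⟩
  have h3 : Disjoint (A ∪ B ∪ Z) C :=
    Finset.disjoint_union_left.mpr ⟨Finset.disjoint_union_left.mpr ⟨hAC, hBC⟩, hZC⟩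
  rw [Finset.card_union_of_disjoint h3, Finset.card_union_of_disjoint h1,
    Finset.card_union_of_disjoint hAB, hBcard, hCcard] at hcard
  have h4 : r ≤ Z.card := card_zero (by omega)
  omega

theorem discs_disjoint {D D' : Finset (ZMod (r * p))} (hD : D ∈ G.discs) (hD' : D' ∈ G.discs)
    {t : ZMod (r * p)} (ht : t ∈ D) (ht' : t ∈ D') : D = D' := by
  ext s
  rw [G.cycle D hD t ht, G.cycle D' hD' t ht']

/-- **The number of Scharlemann cycles** is at least `r + 1 - 2 * g`. -/
theorem le_card_scharlemann (hp : 2 ≤ p) (h2 : 2 ∣ p) :
    r + 1 ≤ G.scharlemann.card + 2 * g := by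
  classical
  -- every other disc has a side with positive jump
  set N := G.discs.filter fun D => ¬ IsScharlemann D with hN
  have hex : ∀ D ∈ N, ∃ t ∈ D, 0 < G.jump t := by
    intro D hD
    obtain ⟨hD1, hD2⟩ := Finset.mem_filter.mp hD
    by_contra hcon
    push Not at hcon
    exact hD2 (G.scharlemann_of_nonpos (by omega) hD1 hcon)
  have hcard : N.card ≤ G.pos.card := by
    choose! f hf using hex
    refine Finset.card_le_card_of_injOn f (fun D hD => ?_) ?_
    · exact Finset.mem_coe.mpr (Finset.mem_filter.mpr ⟨Finset.mem_univ _,
        (hf D (Finset.mem_coe.mp hD)).2⟩)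
    · intro D hD D' hD' h
      have hD1 := hf D (Finset.mem_coe.mp hD)
      have hD2 := hf D' (Finset.mem_coe.mp hD')
      refine G.discs_disjoint (Finset.mem_filter.mp (Finset.mem_coe.mp hD)).1
        (Finset.mem_filter.mp (Finset.mem_coe.mp hD')).1 hD1.1 ?_
      rw [h]
      exact hD2.1
  have hsum : G.scharlemann.card + N.card = G.discs.card := by
    have := Finset.card_filter_add_card_filter_not (s := G.discs) IsScharlemann
    unfold scharlemann
    convert this
  have h3 := G.card_pos_le hp h2
  have h4 := G.euler
  omega

/-- The lengths of the discs. -/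
theorem sum_card_le : ∑ D ∈ G.discs, D.card ≤ r * p := by
  classical
  have h1 : (G.discs.biUnion fun D => D).card = ∑ D ∈ G.discs, D.card := by
    refine Finset.card_biUnion fun D hD D' hD' hne => ?_
    show Disjoint D D'
    rw [Finset.disjoint_left]
    intro t ht ht'
    exact hne (G.discs_disjoint hD hD' ht ht')
  rw [← h1]
  refine (Finset.card_le_univ _).trans ?_
  rw [ZMod.card]

/-- The lengths of the Scharlemann cycles: the numbers `length - 2` add up to at most
`4 * g - 2`. -/
theorem sum_card_scharlemann_le :
    ∑ D ∈ G.scharlemann, D.card + 2 ≤ 2 * G.scharlemann.card + 4 * g := by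
  classical
  have h3 := G.sum_card_le
  have h4 := G.euler
  have hsplit : ∑ D ∈ G.discs, D.card =
      ∑ D ∈ G.discs.filter IsScharlemann, D.card +
        ∑ D ∈ G.discs.filter (fun D => ¬ IsScharlemann D), D.card :=
    (Finset.sum_filter_add_sum_filter_not _ _ _).symm
  have h6 : (G.discs.filter (fun D => ¬ IsScharlemann D)).card * 2 ≤
      ∑ D ∈ G.discs.filter (fun D => ¬ IsScharlemann D), D.card := by
    rw [← smul_eq_mul, ← Finset.sum_const]
    exact Finset.sum_le_sum fun D hD => G.two_le_card D (Finset.mem_filter.mp hD).1
  have h7 : (G.discs.filter IsScharlemann).card +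
      (G.discs.filter (fun D => ¬ IsScharlemann D)).card = G.discs.card :=
    Finset.card_filter_add_card_filter_not (s := G.discs) IsScharlemann
  have h8 : G.scharlemann = G.discs.filter IsScharlemann := by
    unfold scharlemann
    convert rfl
  rw [h8]
  omega

/-- If all Scharlemann cycles have length `r` then `r ≤ 2 * g + 1`. -/
theorem le_of_forall_card (hp : 2 ≤ p) (h2 : 2 ∣ p)
    (h : ∀ D ∈ G.discs, IsScharlemann D → D.card = r) : r ≤ 2 * g + 1 := by
  classical
  have hs := G.le_card_scharlemann hp h2
  have h3 := G.sum_card_scharlemann_le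
  have h5 : ∑ D ∈ G.scharlemann, D.card = G.scharlemann.card * r := by
    rw [Finset.sum_congr rfl (fun D hD => ?_), Finset.sum_const, smul_eq_mul]
    unfold scharlemann at hD
    exact h D (Finset.mem_filter.mp hD).1 (Finset.mem_filter.mp hD).2
  rw [h5] at h3
  set s := G.scharlemann.card
  by_contra hcon
  push Not at hcon
  obtain ⟨k, hk⟩ : ∃ k, r = 2 * g + 2 + k := ⟨r - (2 * g + 2), by omega⟩
  have h13 : k + 3 ≤ s := by omega
  have h14 : (k + 3) * (2 * g + k) ≤ s * (2 * g + k) := Nat.mul_le_mul_right _ h13
  have h15 : s * r = s * (2 * g + k) + 2 * s := by rw [hk]; ring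
  have h16 : (k + 3) * (2 * g + k) = 2 * g * k + k * k + 6 * g + 3 * k := by ring
  have h17 : 0 ≤ 2 * g * k + k * k := Nat.zero_le _
  omega

end

end Graph

end Pool.Agent.Helper87.SC
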