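import Pool.Agent.Helper87.SC.Embedded

/-!
# The graphs of the torus knots

The cabling annulus of the `(a, b)` torus knot has slope `a * b` and meets the Seifert surface of
genus `(a - 1) * (b - 1) / 2` in `a * b` arcs, which cut it into `a` discs with `b` sides and `b` discs
with `a` sides. All of them are bounded by Scharlemann cycles.
-/

set_option autoImplicit false

namespace Pool.Agent.Helper87.SC

namespace Torus

variable {a b : ℕ}

theorem even_val_add {n : ℕ} [NeZero (n * 2)] (x y : ZMod (n * 2)) :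
    (x + y).val % 2 = (x.val + y.val) % 2 := by
  rw [ZMod.val_add, Nat.mod_mod_of_dvd _ (Dvd.intro_left n rfl)]

theorem val_natCast_mod_two {n : ℕ} [NeZero (n * 2)] (c : ℕ) :
    ((c : ZMod (n * 2))).val % 2 = c % 2 := by
  rw [ZMod.val_natCast, Nat.mod_mod_of_dvd _ (Dvd.intro_left n rfl)]

theorem val_sub_mod_two {n : ℕ} [NeZero (n * 2)] (x y : ZMod (n * 2)) :
    ((x - y).val + y.val) % 2 = x.val % 2 := by
  rw [← even_val_add, sub_add_cancel]

/-- The other end of an edge; `c` is odd. -/
def oth (n c : ℕ) (t : ZMod (n * 2)) : ZMod (n * 2) :=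
  if t.val % 2 = 0 then t + c else t - c

theorem oth_parity {n c : ℕ} [NeZero (n * 2)] (hc : c % 2 = 1) (t : ZMod (n * 2)) :
    (oth n c t).val % 2 ≠ t.val % 2 := by
  unfold oth
  have h1 := val_natCast_mod_two (n := n) c
  split_ifs with h
  · rw [even_val_add]
    omega
  · have h2 := val_sub_mod_two t (c : ZMod (n * 2))
    omega

theorem oth_oth {n c : ℕ} [NeZero (n * 2)] (hc : c % 2 = 1) (t : ZMod (n * 2)) :
    oth n c (oth n c t) = t := by
  have h1 := oth_parity hc t
  by_cases h : t.val % 2 = 0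
  · have h2 : oth n c t = t + c := if_pos h
    have h3 : oth n c (oth n c t) = oth n c t - c := if_neg (by omega)
    rw [h3, h2, add_sub_cancel_right]
  · have h2 : oth n c t = t - c := if_neg h
    have h3 : oth n c (oth n c t) = oth n c t + c := if_pos (by omega)
    rw [h3, h2, sub_add_cancel]

theorem iterate_even {n c : ℕ} [NeZero (n * 2)] (hc : c % 2 = 1) (t : ZMod (n * 2))
    (h : t.val % 2 = 0) (k : ℕ) :
    (fun x => oth n c x + 1)^[k] t = t + k * (c + 1) := by
  have key : ∀ k : ℕ, (t + (k : ZMod (n * 2)) * (c + 1)).val % 2 = 0 := by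
    intro k
    have h1 : (t + (k : ZMod (n * 2)) * (c + 1)) = t + ((k * (c + 1) : ℕ) : ZMod (n * 2)) := by
      push_cast
      ring
    rw [h1, even_val_add]
    have h2 := val_natCast_mod_two (n := n) (k * (c + 1))
    have h3 : k * (c + 1) % 2 = 0 := by
      rw [Nat.mul_mod, show (c + 1) % 2 = 0 by omega, Nat.mul_zero]
    omega
  induction k with
  | zero => simp
  | succ k ih =>
    rw [Function.iterate_succ_apply', ih]
    have h2 : oth n c (t + k * (c + 1)) = t + k * (c + 1) + c := if_pos (key k)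
    rw [h2]
    push_cast
    ring

theorem iterate_odd {n c : ℕ} [NeZero (n * 2)] (hc : c % 2 = 1) (t : ZMod (n * 2))
    (h : t.val % 2 ≠ 0) (k : ℕ) :
    (fun x => oth n c x + 1)^[k] t = t - k * (c - 1) := by
  have key : ∀ k : ℕ, (t - (k : ZMod (n * 2)) * (c - 1)).val % 2 ≠ 0 := by
    intro k
    have h1 : (k : ZMod (n * 2)) * (c - 1) = ((k * (c - 1) : ℕ) : ZMod (n * 2)) := by
      push_cast [Nat.cast_sub (show 1 ≤ c by omega)]
      ring
    rw [h1]
    have h2 := val_natCast_mod_two (n := n) (k * (c - 1))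
    have h3 : k * (c - 1) % 2 = 0 := by
      rw [Nat.mul_mod, show (c - 1) % 2 = 0 by omega, Nat.mul_zero]
    have h4 := val_sub_mod_two t ((k * (c - 1) : ℕ) : ZMod (n * 2))
    omega
  induction k with
  | zero => simp
  | succ k ih =>
    rw [Function.iterate_succ_apply', ih]
    have h2 : oth n c (t - k * (c - 1)) = t - k * (c - 1) - c := if_neg (key k)
    rw [h2]
    push_cast
    ring

/-- The number of the boundary circle. -/
def circ (a b : ℕ) [NeZero a] [NeZero b] (t : ZMod (a * b * 2)) : Fin (a + b) :=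
  if t.val % 2 = 0 then ⟨t.val / 2 % a, (Nat.mod_lt _ (NeZero.pos a)).trans_le (Nat.le_add_right a b)⟩
  else ⟨a + t.val / 2 % b, Nat.add_lt_add_left (Nat.mod_lt _ (NeZero.pos b)) a⟩

theorem circ_val [NeZero a] [NeZero b] (t : ZMod (a * b * 2)) :
    (circ a b t).val = if t.val % 2 = 0 then t.val / 2 % a else a + t.val / 2 % b := by
  unfold circ
  split_ifs <;> rfl

theorem circ_lt_iff [NeZero a] [NeZero b] (t : ZMod (a * b * 2)) :
    (circ a b t).val < a ↔ t.val % 2 = 0 := by
  rw [circ_val]
  have := Nat.mod_lt (t.val / 2) (NeZero.pos a)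
  split_ifs with h
  · simp [h, this]
  · simp [h]

theorem mul_eq_zero' (a b : ℕ) : (a : ZMod (a * b * 2)) * b * 2 = 0 := by
  have h := ZMod.natCast_self (a * b * 2)
  push_cast at h
  exact h

theorem natCast_val_eq {n : ℕ} [NeZero n] (t : ZMod n) : ((t.val : ℤ) : ZMod n) = t := by
  rw [Int.cast_natCast, ZMod.natCast_zmod_val]

/-- The cycles of even points. -/
theorem circ_even [NeZero a] [NeZero b] {u v : ℕ} (huv : a * u = b * v + 1)
    (s t : ZMod (a * b * 2)) (hs : s.val % 2 = 0) (ht : t.val % 2 = 0) :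
    s.val / 2 % a = t.val / 2 % a ↔
      ∃ k : ℕ, t + k * (((2 * (a * u) - 1 : ℕ) : ZMod (a * b * 2)) + 1) = s := by
  have hpos : 1 ≤ a * u := by omega
  have hc : ((2 * (a * u) - 1 : ℕ) : ZMod (a * b * 2)) + 1 = 2 * a * u := by
    rw [Nat.cast_sub (by omega)]
    push_cast
    ring
  rw [hc]
  have huv' : (a : ZMod (a * b * 2)) * u = b * v + 1 := by exact_mod_cast congrArg _ huv
  have h0 := mul_eq_zero' a b
  constructor
  · intro h
    obtain ⟨m, hm⟩ : ∃ m : ℤ, (s.val : ℤ) - t.val = 2 * a * m := by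
      have h1 : ((s.val / 2 : ℕ) : ℤ) ≡ ((t.val / 2 : ℕ) : ℤ) [ZMOD a] := by
        exact_mod_cast (show s.val / 2 ≡ t.val / 2 [MOD a] from h)
      obtain ⟨m, hm⟩ := h1.symm.dvd
      refine ⟨m, ?_⟩
      have h2 : (s.val : ℤ) = 2 * ((s.val / 2 : ℕ) : ℤ) := by omega
      have h3 : (t.val : ℤ) = 2 * ((t.val / 2 : ℕ) : ℤ) := by omega
      rw [h2, h3]
      linarith
    have hst : s = t + 2 * a * m := by
      have h1 := congrArg (Int.cast : ℤ → ZMod (a * b * 2)) hm
      rw [Int.cast_sub, natCast_val_eq, natCast_val_eq] at h1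
      push_cast at h1
      rw [← h1]
      ring
    refine ⟨((a * m : ℤ) : ZMod (a * b * 2)).val, ?_⟩
    rw [ZMod.natCast_zmod_val, hst]
    push_cast
    linear_combination (2 * (a : ZMod (a * b * 2)) * m) * huv' + (m : ZMod (a * b * 2)) * v * h0
  · rintro ⟨k, rfl⟩
    have h1 : t + (k : ZMod (a * b * 2)) * (2 * a * u) =
        ((t.val + k * (2 * a * u) : ℕ) : ZMod (a * b * 2)) := by
      push_cast
      rw [ZMod.natCast_zmod_val]
    rw [← Nat.mod_mul_right_div_self, ← Nat.mod_mul_right_div_self, h1, ZMod.val_natCast,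
      Nat.mod_mod_of_dvd _ ⟨b, by ring⟩]
    congr 1
    rw [show k * (2 * a * u) = 2 * a * (k * u) by ring, Nat.add_mul_mod_self_left]

/-- The cycles of odd points. -/
theorem circ_odd [NeZero a] [NeZero b] {u v : ℕ} (huv : a * u = b * v + 1)
    (s t : ZMod (a * b * 2)) (hs : s.val % 2 = 1) (ht : t.val % 2 = 1) :
    s.val / 2 % b = t.val / 2 % b ↔
      ∃ k : ℕ, t - k * (((2 * (a * u) - 1 : ℕ) : ZMod (a * b * 2)) - 1) = s := by
  have hpos : 1 ≤ a * u := by omega
  have huv' : (a : ZMod (a * b * 2)) * u = b * v + 1 := by exact_mod_cast congrArg _ huv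
  have hc : ((2 * (a * u) - 1 : ℕ) : ZMod (a * b * 2)) - 1 = 2 * b * v := by
    rw [Nat.cast_sub (by omega)]
    push_cast
    linear_combination 2 * huv'
  rw [hc]
  have h0 := mul_eq_zero' a b
  constructor
  · intro h
    obtain ⟨m, hm⟩ : ∃ m : ℤ, (s.val : ℤ) - t.val = 2 * b * m := by
      have h1 : ((s.val / 2 : ℕ) : ℤ) ≡ ((t.val / 2 : ℕ) : ℤ) [ZMOD b] := by
        exact_mod_cast (show s.val / 2 ≡ t.val / 2 [MOD b] from h)
      obtain ⟨m, hm⟩ := h1.symm.dvd
      refine ⟨m, ?_⟩
      have h2 : (s.val : ℤ) = 2 * ((s.val / 2 : ℕ) : ℤ) + 1 := by omega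
      have h3 : (t.val : ℤ) = 2 * ((t.val / 2 : ℕ) : ℤ) + 1 := by omega
      rw [h2, h3]
      linarith
    have hst : s = t + 2 * b * m := by
      have h1 := congrArg (Int.cast : ℤ → ZMod (a * b * 2)) hm
      rw [Int.cast_sub, natCast_val_eq, natCast_val_eq] at h1
      push_cast at h1
      rw [← h1]
      ring
    refine ⟨((b * m : ℤ) : ZMod (a * b * 2)).val, ?_⟩
    rw [ZMod.natCast_zmod_val, hst]
    push_cast
    linear_combination (2 * (b : ZMod (a * b * 2)) * m) * huv' - (m : ZMod (a * b * 2)) * u * h0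
  · rintro ⟨k, rfl⟩
    have h1 : t - (k : ZMod (a * b * 2)) * (2 * b * v) =
        ((t.val + k * (2 * b * v) * (a * b * 2 - 1) : ℕ) : ZMod (a * b * 2)) := by
      have h2 : ((a * b * 2 - 1 : ℕ) : ZMod (a * b * 2)) = -1 := by
        have h3 : 0 < a * b * 2 := Nat.pos_of_ne_zero (NeZero.ne _)
        rw [Nat.cast_sub (by omega)]
        push_cast
        rw [h0]
        ring
      push_cast [h2]
      rw [ZMod.natCast_zmod_val]
      ring
    rw [← Nat.mod_mul_right_div_self, ← Nat.mod_mul_right_div_self, h1, ZMod.val_natCast,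
      Nat.mod_mod_of_dvd _ ⟨a, by ring⟩]
    congr 1
    rw [show k * (2 * b * v) * (a * b * 2 - 1) = 2 * b * (k * v * (a * b * 2 - 1)) by ring,
      Nat.add_mul_mod_self_left]

/-- The boundary circles are the cycles. -/
theorem circ_eq [NeZero a] [NeZero b] {u v : ℕ} (huv : a * u = b * v + 1)
    (s t : ZMod (a * b * 2)) : circ a b s = circ a b t ↔
      ∃ k : ℕ, (fun x => oth (a * b) (2 * (a * u) - 1) x + 1)^[k] t = s := by
  have hc : (2 * (a * u) - 1) % 2 = 1 := by omega
  have hpar : ∀ k : ℕ, ((fun x => oth (a * b) (2 * (a * u) - 1) x + 1)^[k] t).val % 2 =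
      t.val % 2 := by
    intro k
    induction k with
    | zero => rfl
    | succ k ih =>
      rw [Function.iterate_succ_apply']
      have h1 := oth_parity hc
        ((fun x => oth (a * b) (2 * (a * u) - 1) x + 1)^[k] t)
      have h2 : (1 : ZMod (a * b * 2)) = ((1 : ℕ) : ZMod (a * b * 2)) := by simp
      have h3 := val_natCast_mod_two (n := a * b) 1
      rw [← h2] at h3
      rw [even_val_add]
      omega
  by_cases hst : s.val % 2 = t.val % 2
  · rw [Fin.ext_iff, circ_val, circ_val]
    by_cases ht : t.val % 2 = 0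
    · rw [if_pos (by omega), if_pos ht, circ_even huv s t (by omega) ht]
      simp only [iterate_even hc t ht]
    · rw [if_neg (by omega), if_neg ht, Nat.add_left_cancel_iff,
        circ_odd huv s t (by omega) (by omega)]
      simp only [iterate_odd hc t ht]
  · constructor
    · intro h
      have h1 := circ_lt_iff (a := a) (b := b) s
      have h2 := circ_lt_iff (a := a) (b := b) t
      rw [h] at h1
      exfalso
      by_cases h3 : (circ a b t).val < a
      · have := h1.mp h3
        have := h2.mp h3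
        omega
      · have := mt h1.mpr h3
        have := mt h2.mpr h3
        omega
    · rintro ⟨k, rfl⟩
      exact absurd (hpar k) hst

theorem circ_surjective [NeZero a] [NeZero b] : Function.Surjective (circ a b) := by
  intro i
  by_cases hi : i.val < a
  · refine ⟨((2 * i.val : ℕ) : ZMod (a * b * 2)), ?_⟩
    have hb := NeZero.pos b
    have h1 : ((2 * i.val : ℕ) : ZMod (a * b * 2)).val = 2 * i.val := by
      rw [ZMod.val_natCast, Nat.mod_eq_of_lt]
      nlinarith
    rw [Fin.ext_iff, circ_val, h1, if_pos (by omega), Nat.mul_div_cancel_left _ (by omega),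
      Nat.mod_eq_of_lt hi]
  · have hi2 := i.isLt
    refine ⟨((2 * (i.val - a) + 1 : ℕ) : ZMod (a * b * 2)), ?_⟩
    have ha := NeZero.pos a
    have h1 : ((2 * (i.val - a) + 1 : ℕ) : ZMod (a * b * 2)).val = 2 * (i.val - a) + 1 := by
      rw [ZMod.val_natCast, Nat.mod_eq_of_lt]
      have h2 : i.val - a < b := by omega
      nlinarith
    rw [Fin.ext_iff, circ_val, h1, if_neg (by omega),
      show (2 * (i.val - a) + 1) / 2 = i.val - a by omega, Nat.mod_eq_of_lt (by omega)]
    omega

/-- The graph of the torus knot. -/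
def graph {g u v : ℕ} [NeZero a] [NeZero b] (hg : 2 * g = (a - 1) * (b - 1))
    (huv : a * u = b * v + 1) : OneVertexGraph 2 (a * b) g where
  other := oth (a * b) (2 * (a * u) - 1)
  circles := a + b
  faces := a + b
  circle := circ a b
  face := id
  faceGenus := fun _ => 0
  other_other := oth_oth (by omega)
  circle_eq := circ_eq huv
  circle_surjective := circ_surjective
  face_surjective := Function.surjective_id
  euler := by
    have h1 : ∀ f : Fin (a + b), (Finset.univ.filter fun i => id i = f).card = 1 := by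
      intro f
      rw [Finset.card_eq_one]
      exact ⟨f, by ext; simp⟩
    simp only [h1]
    have ha := NeZero.pos a
    have hb := NeZero.pos b
    obtain ⟨a', rfl⟩ : ∃ a', a = a' + 1 := ⟨a - 1, by omega⟩
    obtain ⟨b', rfl⟩ : ∃ b', b = b' + 1 := ⟨b - 1, by omega⟩
    have h2 : (2 : ℤ) * g = a' * b' := by
      have := hg
      simp only [Nat.add_sub_cancel] at this
      exact_mod_cast this
    simp
    linear_combination 2 * h2

section

variable {g u v : ℕ} [NeZero a] [NeZero b] (hg : 2 * g = (a - 1) * (b - 1))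
  (huv : a * u = b * v + 1)

theorem isDisc (f : Fin (a + b)) : (graph hg huv).IsDisc f := by
  refine ⟨rfl, ?_⟩
  rw [Finset.card_eq_one]
  refine ⟨f, ?_⟩
  ext i
  rw [Finset.mem_filter, Finset.mem_singleton]
  exact ⟨fun h => h.2, fun h => ⟨Finset.mem_univ _, h⟩⟩

theorem isScharlemann (f : Fin (a + b)) : (graph hg huv).IsScharlemann f := by
  refine ⟨isDisc hg huv f, if f.val < a then 0 else 1, fun t ht => ?_⟩
  have h1 : circ a b t = f := ht
  have h2 := circ_lt_iff (a := a) (b := b) t
  rw [h1] at h2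
  split_ifs with h
  · exact h2.mp h
  · have := mt h2.mpr h
    omega

theorem scharlemann_eq : (graph hg huv).scharlemann = Finset.univ := by
  ext f
  rw [OneVertexGraph.mem_scharlemann]
  simp [isScharlemann hg huv f]

theorem card_scharlemann : (graph hg huv).scharlemann.card = a + b := by
  rw [scharlemann_eq]
  exact Finset.card_fin _

theorem sum_length : ∑ f ∈ (graph hg huv).scharlemann, (graph hg huv).length f = a * b * 2 := by
  rw [scharlemann_eq]
  have h1 : ∀ f : Fin (a + b), (graph hg huv).length f =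
      (Finset.univ.filter fun t => circ a b t = f).card := by
    intro f
    rw [← (graph hg huv).card_sides]
    rfl
  have h2 : ∑ f : Fin (a + b), (Finset.univ.filter fun t => circ a b t = f).card =
      (Finset.univ : Finset (ZMod (a * b * 2))).card :=
    (Finset.card_eq_sum_card_fiberwise (fun t _ => Finset.mem_univ (circ a b t))).symm
  calc ∑ f : Fin (a + b), (graph hg huv).length f
      = ∑ f : Fin (a + b), (Finset.univ.filter fun t => circ a b t = f).card :=
        Finset.sum_congr rfl fun f _ => h1 f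
    _ = a * b * 2 := by rw [h2, Finset.card_univ, ZMod.card]

theorem parity : (graph hg huv).Parity := fun t => oth_parity (by omega) t

theorem noMonogon (ha : 2 ≤ a) (hb : 2 ≤ b) : (graph hg huv).NoMonogon := by
  intro f _ hf
  rw [← OneVertexGraph.card_sides, Finset.card_eq_one] at hf
  obtain ⟨t, ht⟩ := hf
  have ht1 : circ a b t = f := by
    have : t ∈ (graph hg huv).sides f := by rw [ht]; simp
    exact (graph hg huv).mem_sides.mp this
  -- the next point of the cycle is the same point
  have h1 : circ a b (oth (a * b) (2 * (a * u) - 1) t + 1) = f := by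
    rw [← ht1]
    exact (circ_eq huv _ _).mpr ⟨1, rfl⟩
  have h2 : oth (a * b) (2 * (a * u) - 1) t + 1 = t := by
    have : oth (a * b) (2 * (a * u) - 1) t + 1 ∈ (graph hg huv).sides f :=
      (graph hg huv).mem_sides.mpr h1
    rwa [ht, Finset.mem_singleton] at this
  unfold oth at h2
  have hpos : 1 ≤ a * u := by omega
  split_ifs at h2 with h
  · have h3 : ((2 * (a * u) : ℕ) : ZMod (a * b * 2)) = 0 := by
      have h4 : ((2 * (a * u) - 1 : ℕ) : ZMod (a * b * 2)) + 1 = 0 := by linear_combination h2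
      rw [← h4, ← Nat.cast_add_one]
      congr 1
      omega
    rw [ZMod.natCast_eq_zero_iff] at h3
    have h4 : b ∣ u := by
      obtain ⟨m, hm⟩ := h3
      refine ⟨m, ?_⟩
      have : 2 * a * u = 2 * a * (b * m) := by linarith
      exact Nat.eq_of_mul_eq_mul_left (by positivity) this
    have h5 : b ∣ 1 := by
      have h6 : b ∣ b * v + 1 := by
        rw [← huv]
        exact Dvd.dvd.mul_left h4 a
      exact (Nat.dvd_add_right (Dvd.intro v rfl)).mp h6
    have := Nat.le_of_dvd one_pos h5
    omega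
  · have h3 : ((2 * (b * v) : ℕ) : ZMod (a * b * 2)) = 0 := by
      have h4 : ((2 * (a * u) - 1 : ℕ) : ZMod (a * b * 2)) = 1 := by linear_combination -h2
      have h5 : ((2 * (a * u) - 1 : ℕ) : ZMod (a * b * 2)) = ((2 * (b * v) : ℕ) : ZMod (a * b * 2))
          + 1 := by
        rw [← Nat.cast_add_one]
        congr 1
        omega
      rw [h5] at h4
      linear_combination h4
    rw [ZMod.natCast_eq_zero_iff] at h3
    have h4 : a ∣ v := by
      obtain ⟨m, hm⟩ := h3
      refine ⟨m, ?_⟩
      have : 2 * b * v = 2 * b * (a * m) := by linarith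
      exact Nat.eq_of_mul_eq_mul_left (by positivity) this
    have h5 : a ∣ 1 := by
      have h6 : a ∣ b * v + 1 := by
        rw [← huv]
        exact Dvd.intro u rfl
      exact (Nat.dvd_add_right (Dvd.dvd.mul_left h4 b)).mp h6
    have := Nat.le_of_dvd one_pos h5
    omega

end

/-- **The bounds are attained** for all torus knots. -/
theorem exists_graph {a b g : ℕ} (ha : 2 ≤ a) (hb : 2 ≤ b) (hab : Nat.Coprime a b)
    (hg : 2 * g = (a - 1) * (b - 1)) :
    ∃ G : OneVertexGraph 2 (a * b) g, G.Parity ∧ G.NoMonogon ∧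
      a * b + 1 = G.scharlemann.card + 2 * g ∧
      ∑ f ∈ G.scharlemann, G.length f + 2 = 2 * G.scharlemann.card + 4 * g := by
  have : NeZero a := ⟨by omega⟩
  have : NeZero b := ⟨by omega⟩
  obtain ⟨u, _, hu⟩ := Nat.exists_mul_mod_eq_one_of_coprime hab (by omega)
  obtain ⟨v, hv⟩ : ∃ v, a * u = b * v + 1 := by
    refine ⟨a * u / b, ?_⟩
    have := Nat.div_add_mod (a * u) b
    rw [hu] at this
    exact this.symm
  obtain ⟨a', rfl⟩ : ∃ a', a = a' + 1 := ⟨a - 1, by omega⟩
  obtain ⟨b', rfl⟩ : ∃ b', b = b' + 1 := ⟨b - 1, by omega⟩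
  have hg' : 2 * g = a' * b' := by simpa using hg
  refine ⟨graph hg hv, parity hg hv, noMonogon hg hv ha hb, ?_, ?_⟩
  · rw [card_scharlemann]
    nlinarith
  · rw [card_scharlemann, sum_length]
    nlinarith

end Torus

end Pool.Agent.Helper87.SC
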